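import Pool.Agent.W845.TR.Base

/-!
Project TR (MP_985e29_pr), part CSI: change of measure by the Cauchy-Schwarz inequality.
-/

set_option autoImplicit false

namespace Pool.Agent.W327.TR

open Pool.Agent.W845.TR

/-- the two point Cauchy-Schwarz inequality -/
theorem two_pt {p c a b : ℝ} (hp0 : 0 < p) (hp1 : p < 1) :
    ((p + c) * a + (1 - (p + c)) * b) ^ 2 ≤
      (1 + c ^ 2 / (p * (1 - p))) * (p * a ^ 2 + (1 - p) * b ^ 2) := by
  have h1 : 0 < 1 - p := by linarith
  have h2 : 0 < p * (1 - p) := mul_pos hp0 h1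
  have e1 : (1 + c ^ 2 / (p * (1 - p))) * (p * a ^ 2 + (1 - p) * b ^ 2) =
      ((p * (1 - p) + c ^ 2) * (p * a ^ 2 + (1 - p) * b ^ 2)) / (p * (1 - p)) := by
    field_simp
  rw [e1, le_div_iff₀ h2]
  nlinarith [sq_nonneg (p * (1 - p) * (a - b) - c * ((1 - p) * b + p * a)),
    sq_nonneg ((1 - p) * (p + c) * b - p * (1 - p - c) * a)]

theorem csi_sq {d : ℕ} {p : ℝ} (hp0 : 0 < p) (hp1 : p < 1) (c : S d → ℝ) (B : Finset (S d)) :
    ∀ f : Finset (S d) → ℝ, (Ex (fun x => p + c x) B f) ^ 2 ≤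
      Real.exp ((∑ x ∈ B, (c x) ^ 2) / (p * (1 - p))) * Ex (fun _ => p) B (fun A => (f A) ^ 2) := by
  classical
  have h1 : 0 < 1 - p := by linarith
  have h2 : 0 < p * (1 - p) := mul_pos hp0 h1
  induction B using Finset.induction_on with
  | empty =>
    intro f
    rw [Ex_empty, Ex_empty]
    simp
  | insert x B hx ih =>
    intro f
    rw [Ex_insert _ B x hx, Ex_insert _ B x hx, Finset.sum_insert hx, add_div, Real.exp_add]
    have k1 := ih (fun A => f (insert x A))
    have k2 := ih f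
    obtain ⟨M, hM⟩ : ∃ M, M = Real.exp ((∑ x ∈ B, (c x) ^ 2) / (p * (1 - p))) := ⟨_, rfl⟩
    rw [← hM] at k1 k2 ⊢
    have h3 := two_pt (c := c x) (a := Ex (fun x => p + c x) B (fun A => f (insert x A)))
      (b := Ex (fun x => p + c x) B f) hp0 hp1
    have h4 : 1 + c x ^ 2 / (p * (1 - p)) ≤ Real.exp (c x ^ 2 / (p * (1 - p))) := by
      have := Real.add_one_le_exp (c x ^ 2 / (p * (1 - p)))
      linarith
    refine h3.trans ?_
    have h5 : p * Ex (fun x => p + c x) B (fun A => f (insert x A)) ^ 2 +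
        (1 - p) * Ex (fun x => p + c x) B f ^ 2 ≤
        M * (p * Ex (fun _ => p) B (fun A => (f (insert x A)) ^ 2) +
          (1 - p) * Ex (fun _ => p) B (fun A => (f A) ^ 2)) := by
      have e1 := mul_le_mul_of_nonneg_left k1 hp0.le
      have e2 := mul_le_mul_of_nonneg_left k2 h1.le
      linarith
    rw [mul_assoc]
    exact mul_le_mul h4 h5 (by positivity) (Real.exp_pos _).le

theorem csi : St_CSI := by
  intro d p B c f hp0 hp1 _ _
  have h := csi_sq hp0 hp1 c B f
  have h1 : 0 < 1 - p := by linarith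
  have e1 : (∑ x ∈ B, (c x) ^ 2) / (2 * (p * (1 - p))) =
      (∑ x ∈ B, (c x) ^ 2) / (p * (1 - p)) / 2 := by
    rw [mul_comm 2, div_div]
  rw [e1, Real.exp_half, ← Real.sqrt_mul (Real.exp_pos _).le]
  exact Real.le_sqrt_of_sq_le h

end Pool.Agent.W327.TR
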